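import Mathlib

/-!
# Lines in sumsets: the vanishing lemma and the localisation lemma
-/

set_option autoImplicit false

namespace Pool.Agent.Q274.LS

open Finset MvPolynomial

/-- A product of functions that are orthogonal to all monomials of degree at most `D` is
orthogonal to every polynomial of degree less than `|I|(D+1)`. -/
theorem vanish {K : Type} [Field K] {I V : Type} [Fintype I] [DecidableEq I] [Fintype V] {n : ℕ}
    (e : V → Fin n → K) (D : ℕ) (h : I → V → K)
    (hh : ∀ v, ∀ α : Fin n → ℕ, ∑ i, α i ≤ D → ∑ x, h v x * ∏ i, e x i ^ α i = 0)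
    (Q : MvPolynomial (I × Fin n) K) (hQ : Q.totalDegree < Fintype.card I * (D + 1)) :
    ∑ x : I → V, (∏ v, h v (x v)) * eval (fun q => e (x q.1) q.2) Q = 0 := by
  classical
  have h1 : ∀ x : I → V, (∏ v, h v (x v)) * eval (fun q => e (x q.1) q.2) Q
      = ∑ m ∈ Q.support, Q.coeff m * ∏ v, (h v (x v) * ∏ i, e (x v) i ^ m (v, i)) := by
    intro x
    rw [eval_eq', mul_sum]
    refine sum_congr rfl fun m _ => ?_
    rw [prod_mul_distrib, Fintype.prod_prod_type]
    ring
  rw [sum_congr rfl fun x _ => h1 x, sum_comm]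
  refine sum_eq_zero fun m hm => ?_
  rw [← mul_sum]
  have h2 : ∑ x : I → V, ∏ v, (h v (x v) * ∏ i, e (x v) i ^ m (v, i))
      = ∏ v, ∑ y : V, (h v y * ∏ i, e y i ^ m (v, i)) := by
    rw [Finset.prod_univ_sum (fun _ => univ) (fun v y => h v y * ∏ i, e y i ^ m (v, i)),
      Fintype.piFinset_univ]
  rw [h2]
  have h3 : ∃ v, ∑ i, m (v, i) ≤ D := by
    by_contra hcon
    push Not at hcon
    have h4 := le_totalDegree hm
    rw [Finsupp.sum_fintype _ _ (fun _ => rfl), Fintype.sum_prod_type] at h4
    have h5 : Fintype.card I * (D + 1) ≤ ∑ v, ∑ i, m (v, i) := by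
      have := Finset.card_nsmul_le_sum univ (fun v => ∑ i, m (v, i)) (D + 1)
        (fun v _ => hcon v)
      simpa [Finset.card_univ] using this
    omega
  obtain ⟨v, hv⟩ := h3
  rw [Finset.prod_eq_zero (mem_univ v) (hh v (fun i => m (v, i)) hv), mul_zero]

/-- Every finite set contains a small set `B` such that the evaluations in the points of the set
are combinations of the evaluations in the points of `B`. -/
theorem basis_lemma {K V : Type} [Field K] [Fintype V] [DecidableEq V]
    (W : Submodule K (V → K)) (M : ℕ) (hM : Module.finrank K W ≤ M) (X : Finset V) :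
    ∃ B ⊆ X, B.card ≤ M ∧ ∀ z ∈ X, z ∉ B → ∃ h : V → K, h z = 1 ∧
      (∀ x, h x ≠ 0 → x = z ∨ x ∈ B) ∧ ∀ q ∈ W, ∑ x, h x * q x = 0 := by
  classical
  let ev : V → Module.Dual K W := fun x => (LinearMap.proj x).comp W.subtype
  obtain ⟨b, hb1, -, hb2, hb3⟩ := exists_linearIndepOn_extension
    (K := K) (v := ev) (s := ∅) (t := (X : Set V)) (linearIndepOn_empty K ev) (Set.empty_subset _)
  have hbfin : b.Finite := Set.toFinite b
  have : Fintype b := hbfin.fintype
  refine ⟨b.toFinset, fun x hx => by simpa using hb1 (by simpa using hx), ?_, ?_⟩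
  · refine le_trans ?_ hM
    rw [← Subspace.dual_finrank_eq (K := K) (V := W)]
    have h1 : Fintype.card b ≤ Module.finrank K (Module.Dual K W) :=
      LinearIndependent.fintype_card_le_finrank hb3
    simpa [Set.toFinset_card] using h1
  · intro z hz hzB
    have hz1 : ev z ∈ Submodule.span K (ev '' b) := hb2 ⟨z, by simpa using hz, rfl⟩
    rw [Finsupp.mem_span_image_iff_linearCombination] at hz1
    obtain ⟨c, hc1, hc2⟩ := hz1
    have hsupp : ∀ x, c x ≠ 0 → x ∈ b := by
      intro x hx
      exact (Finsupp.mem_supported K c).1 hc1 (by simpa using hx)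
    have hcz : c z = 0 := by
      by_contra h0
      exact hzB (by simpa using hsupp z h0)
    refine ⟨fun x => (if x = z then 1 else 0) - c x, by simp [hcz], ?_, ?_⟩
    · intro x hx
      by_cases hxz : x = z
      · exact Or.inl hxz
      · right
        simp only [hxz, if_false, zero_sub, ne_eq, neg_eq_zero] at hx
        simpa using hsupp x hx
    · intro q hq
      have h1 := congrArg (fun φ : Module.Dual K W => φ ⟨q, hq⟩) hc2
      simp only [Finsupp.linearCombination_apply, Finsupp.sum_fintype, zero_smul,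
        implies_true] at h1
      rw [LinearMap.sum_apply] at h1
      simp only [LinearMap.smul_apply, smul_eq_mul] at h1
      have h2 : ∀ x, ev x ⟨q, hq⟩ = q x := fun x => rfl
      simp only [h2] at h1
      simp only [sub_mul, sum_sub_distrib, ite_mul, one_mul, zero_mul, sum_ite_eq', mem_univ,
        if_true]
      rw [h1, sub_self]

/-- Localisation. Outside a small exceptional set `E`, one can find for every point `z` of `X`
functions `h`, `k` supported on `X` and orthogonal to `W₁` and `W₂`, respectively, such that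
the product `h k` vanishes outside `z` and is `1` in `z`. -/
theorem localize {K V : Type} [Field K] [Fintype V] [DecidableEq V]
    (W₁ W₂ : Submodule K (V → K)) (M : ℕ) (h₁ : Module.finrank K W₁ ≤ M)
    (h₂ : Module.finrank K W₂ ≤ M) (X : Finset V) :
    ∃ E ⊆ X, E.card ≤ 2 * M ∧ ∀ z ∈ X, z ∉ E → ∃ h k : V → K,
      (∀ x, h x ≠ 0 → x ∈ X) ∧ (∀ x, k x ≠ 0 → x ∈ X) ∧
      (∀ q ∈ W₁, ∑ x, h x * q x = 0) ∧ (∀ q ∈ W₂, ∑ x, k x * q x = 0) ∧
      h z * k z = 1 ∧ ∀ x, h x * k x ≠ 0 → x = z := by
  classical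
  obtain ⟨B, hB, hBc, hB'⟩ := basis_lemma W₁ M h₁ X
  obtain ⟨C, hC, hCc, hC'⟩ := basis_lemma W₂ M h₂ (X \ B)
  have hCX : C ⊆ X := fun x hx => (mem_sdiff.1 (hC hx)).1
  refine ⟨B ∪ C, union_subset hB hCX, ?_, ?_⟩
  · have := card_union_le B C
    omega
  · intro z hz hzE
    rw [mem_union, not_or] at hzE
    obtain ⟨h, hz1, hs, ho⟩ := hB' z hz hzE.1
    obtain ⟨k, kz1, ks, ko⟩ := hC' z (mem_sdiff.2 ⟨hz, hzE.1⟩) hzE.2
    refine ⟨h, k, ?_, ?_, ho, ko, by rw [hz1, kz1, one_mul], ?_⟩
    · intro x hx
      rcases hs x hx with rfl | h'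
      · exact hz
      · exact hB h'
    · intro x hx
      rcases ks x hx with rfl | h'
      · exact hz
      · exact hCX h'
    · intro x hx
      rcases hs x (left_ne_zero_of_mul hx) with h' | h'
      · exact h'
      · rcases ks x (right_ne_zero_of_mul hx) with h'' | h''
        · exact h''
        · exact absurd h' (mem_sdiff.1 (hC h'')).2

variable {p : ℕ} [hp : Fact p.Prime]

/-- The product of `1 - L ^ (p - 1)` over linear forms. -/
theorem system_poly {σ E : Type} [Fintype E] (L : E → MvPolynomial σ (ZMod p))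
    (hL : ∀ e, (L e).totalDegree ≤ 1) :
    ∃ Q : MvPolynomial σ (ZMod p), Q.totalDegree ≤ Fintype.card E * (p - 1) ∧
      ∀ x : σ → ZMod p, (∀ e, eval x (L e) = 0) ∧ eval x Q = 1 ∨
        (∃ e, eval x (L e) ≠ 0) ∧ eval x Q = 0 := by
  classical
  refine ⟨∏ e, (1 - L e ^ (p - 1)), ?_, ?_⟩
  · refine (totalDegree_finsetProd _ _).trans ?_
    have h1 : ∀ e ∈ (univ : Finset E), (1 - L e ^ (p - 1)).totalDegree ≤ p - 1 := by
      intro e _
      refine (totalDegree_sub _ _).trans ?_
      rw [totalDegree_one]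
      refine max_le (Nat.zero_le _) ((totalDegree_pow _ _).trans ?_)
      calc (p - 1) * (L e).totalDegree ≤ (p - 1) * 1 := Nat.mul_le_mul_left _ (hL e)
        _ = p - 1 := mul_one _
    have := Finset.sum_le_card_nsmul univ _ _ h1
    simpa [Finset.card_univ] using this
  · intro x
    have hp1 : p - 1 ≠ 0 := by
      have := hp.out.two_le
      omega
    by_cases hall : ∀ e, eval x (L e) = 0
    · left
      refine ⟨hall, ?_⟩
      rw [map_prod]
      refine prod_eq_one fun e _ => ?_
      rw [map_sub, map_one, map_pow, hall e, zero_pow hp1, sub_zero]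
    · right
      push Not at hall
      obtain ⟨e, he⟩ := hall
      refine ⟨⟨e, he⟩, ?_⟩
      rw [map_prod]
      refine prod_eq_zero (mem_univ e) ?_
      rw [map_sub, map_one, map_pow, ZMod.pow_card_sub_one_eq_one he, sub_self]

end Pool.Agent.Q274.LS
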