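import Pool.Agent.Q274.LS.Main

/-!
# Counting monomials, and the power saving
-/

set_option autoImplicit false

namespace Pool.Agent.Q274.LS

open Finset

variable {p : ℕ} [hp : Fact p.Prime]

theorem pow_red (a : ℕ) : ∃ b, b < p ∧ b ≤ a ∧ ∀ x : ZMod p, x ^ a = x ^ b := by
  induction a using Nat.strong_induction_on with
  | _ a ih =>
    have hp2 := hp.out.two_le
    by_cases ha : a < p
    · exact ⟨a, ha, le_rfl, fun _ => rfl⟩
    · obtain ⟨b, hb1, hb2, hb3⟩ := ih (a - (p - 1)) (by omega)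
      refine ⟨b, hb1, by omega, fun x => ?_⟩
      rw [← hb3]
      have h1 : x ^ a = x ^ (a - p) * x ^ p := by
        rw [← pow_add]
        congr 1
        omega
      have h2 : a - (p - 1) = (a - p) + 1 := by omega
      rw [h1, ZMod.pow_card, h2, pow_succ]

/-- the functions of degree at most `D` -/
def lowDeg (p : ℕ) [Fact p.Prime] (n D : ℕ) : Submodule (ZMod p) ((Fin n → ZMod p) → ZMod p) :=
  Submodule.span (ZMod p) {f | ∃ α : Fin n → ℕ, ∑ i, α i ≤ D ∧
    f = fun x : Fin n → ZMod p => ∏ i, x i ^ α i}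

/-- the number of reduced monomials of degree at most `D` -/
def count (p n D : ℕ) : ℕ := (univ.filter fun β : Fin n → Fin p => ∑ i, (β i : ℕ) ≤ D).card

theorem finrank_lowDeg (n D : ℕ) : Module.finrank (ZMod p) (lowDeg p n D) ≤ count p n D := by
  classical
  let S := {β : Fin n → Fin p // ∑ i, (β i : ℕ) ≤ D}
  let F : S → (Fin n → ZMod p) → ZMod p := fun β x => ∏ i, x i ^ (β.1 i : ℕ)
  have h1 : lowDeg p n D ≤ Submodule.span (ZMod p) (Set.range F) := by
    refine Submodule.span_mono ?_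
    rintro f ⟨α, hα, rfl⟩
    choose b hb1 hb2 hb3 using fun i => pow_red (p := p) (α i)
    refine ⟨⟨fun i => ⟨b i, hb1 i⟩, (sum_le_sum fun i _ => hb2 i).trans hα⟩, ?_⟩
    funext x
    exact prod_congr rfl fun i _ => (hb3 i (x i)).symm
  calc Module.finrank (ZMod p) (lowDeg p n D)
      ≤ Module.finrank (ZMod p) (Submodule.span (ZMod p) (Set.range F)) :=
        Submodule.finrank_mono h1
    _ ≤ Fintype.card S := finrank_range_le_card F
    _ = count p n D := by
        rw [count, Fintype.card_subtype]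

/-- the exponential bound for the number of monomials -/
theorem count_le (n D : ℕ) (hD : (2 * p + 4) * D ≤ (p + 1) * n * (p - 1)) (u : ℝ) (hu : 0 < u)
    (hu1 : u ≤ 1) :
    (count p n D : ℝ) ≤ ((∑ j ∈ range p, u ^ ((2 * p + 4) * j)) / u ^ ((p + 1) * (p - 1))) ^ n := by
  classical
  have h1 : (count p n D : ℝ) * u ^ ((2 * p + 4) * D)
      ≤ (∑ j ∈ range p, u ^ ((2 * p + 4) * j)) ^ n := by
    have e1 : (∑ j ∈ range p, u ^ ((2 * p + 4) * j)) ^ n
        = ∑ β : Fin n → Fin p, u ^ ((2 * p + 4) * ∑ i, (β i : ℕ)) := by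
      rw [← Fin.sum_univ_eq_sum_range (fun j => u ^ ((2 * p + 4) * j)) p]
      have := Finset.prod_univ_sum (fun _ : Fin n => (univ : Finset (Fin p)))
        (fun _ j => u ^ ((2 * p + 4) * (j : ℕ)))
      rw [Fintype.piFinset_univ, prod_const, card_univ, Fintype.card_fin] at this
      rw [this]
      refine sum_congr rfl fun β _ => ?_
      rw [prod_pow_eq_pow_sum, mul_sum]
    rw [e1]
    calc (count p n D : ℝ) * u ^ ((2 * p + 4) * D)
        = ∑ β ∈ univ.filter (fun β : Fin n → Fin p => ∑ i, (β i : ℕ) ≤ D),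
            u ^ ((2 * p + 4) * D) := by rw [sum_const, nsmul_eq_mul]; rfl
      _ ≤ ∑ β ∈ univ.filter (fun β : Fin n → Fin p => ∑ i, (β i : ℕ) ≤ D),
            u ^ ((2 * p + 4) * ∑ i, (β i : ℕ)) := by
          refine sum_le_sum fun β hβ => ?_
          exact pow_le_pow_of_le_one hu.le hu1 (Nat.mul_le_mul_left _ (mem_filter.1 hβ).2)
      _ ≤ _ := sum_le_sum_of_subset_of_nonneg (filter_subset _ _) fun _ _ _ => by positivity
  have h2 : u ^ ((p + 1) * (p - 1) * n) ≤ u ^ ((2 * p + 4) * D) := by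
    refine pow_le_pow_of_le_one hu.le hu1 (hD.trans (le_of_eq ?_))
    ring
  rw [div_pow, ← pow_mul, le_div_iff₀ (by positivity)]
  exact (mul_le_mul_of_nonneg_left h2 (Nat.cast_nonneg _)).trans h1

/-- there is `u < 1` with a saving -/
theorem exists_u (p : ℕ) (hp2 : 2 ≤ p) : ∃ u : ℝ, 0 < u ∧ u < 1 ∧
    (∑ j ∈ range p, u ^ ((2 * p + 4) * j)) / u ^ ((p + 1) * (p - 1)) < p := by
  let f : ℝ → ℝ := fun u => (p : ℝ) * u ^ ((p + 1) * (p - 1)) - ∑ j ∈ range p, u ^ ((2 * p + 4) * j)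
  have hf : HasDerivAt f ((p : ℝ) * (((p + 1) * (p - 1) : ℕ) * 1)
      - ∑ j ∈ range p, (((2 * p + 4) * j : ℕ) : ℝ) * 1) 1 := by
    have h1 : ∀ m : ℕ, HasDerivAt (fun u : ℝ => u ^ m) ((m : ℝ) * 1) 1 := by
      intro m
      have := hasDerivAt_pow m (1 : ℝ)
      simpa using this
    refine ((h1 _).const_mul _).sub ?_
    exact HasDerivAt.fun_sum fun j _ => h1 _
  have hval : ((p : ℝ) * (((p + 1) * (p - 1) : ℕ) * 1)
      - ∑ j ∈ range p, (((2 * p + 4) * j : ℕ) : ℝ) * 1) < 0 := by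
    simp only [mul_one]
    have h2 : (∑ j ∈ range p, (((2 * p + 4) * j : ℕ) : ℝ))
        = (2 * p + 4) * ((p : ℝ) * (p - 1) / 2) := by
      have h3 : (∑ j ∈ range p, (j : ℝ)) = (p : ℝ) * (p - 1) / 2 := by
        have := Finset.sum_range_id_mul_two p
        have h4 : ((∑ j ∈ range p, j : ℕ) : ℝ) * 2 = (p : ℝ) * ((p - 1 : ℕ) : ℝ) := by
          exact_mod_cast this
        rw [Nat.cast_sub (by omega), Nat.cast_one, Nat.cast_sum] at h4
        linarith
      push_cast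
      rw [← mul_sum, h3]
    rw [h2]
    push_cast
    rw [Nat.cast_sub (by omega), Nat.cast_one]
    have h5 : (2 : ℝ) ≤ p := by exact_mod_cast hp2
    nlinarith
  have hs := hf.tendsto_slope
  have hev : ∀ᶠ u in nhdsWithin (1 : ℝ) {1}ᶜ, slope f 1 u < 0 :=
    hs.eventually (gt_mem_nhds hval)
  have hev2 : ∀ᶠ u in nhdsWithin (1 : ℝ) (Set.Iio 1), slope f 1 u < 0 :=
    hev.filter_mono (nhdsWithin_mono _ fun u (hu : u < 1) => ne_of_lt hu)
  have hev3 : ∀ᶠ u in nhdsWithin (1 : ℝ) (Set.Iio 1), (0 : ℝ) < u :=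
    (lt_mem_nhds (zero_lt_one (α := ℝ))).filter_mono nhdsWithin_le_nhds
  obtain ⟨u, ⟨hu1, hu2⟩, hu3⟩ := ((hev2.and hev3).and
    (self_mem_nhdsWithin : ∀ᶠ u in nhdsWithin (1 : ℝ) (Set.Iio 1), u ∈ Set.Iio (1 : ℝ))).exists
  have hu3' : u < 1 := hu3
  refine ⟨u, hu2, hu3', ?_⟩
  have hf1 : f 1 = 0 := by simp [f]
  rw [slope_def_field, hf1, sub_zero] at hu1
  have h6 : 0 < f u := by
    by_contra hcon
    push Not at hcon
    have : 0 ≤ f u / (u - 1) := div_nonneg_of_nonpos hcon (by linarith)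
    linarith
  rw [div_lt_iff₀ (by positivity)]
  simp only [f] at h6
  linarith

/-- **Power saving for line-free sumsets.** -/
theorem power_saving (p : ℕ) [Fact p.Prime] : ∃ ρ : ℝ, 1 ≤ ρ ∧ ρ < p ∧
    ∀ (n : ℕ) (P R : Finset (Fin n → ZMod p)),
      (∀ x d : Fin n → ZMod p, (∀ j : ZMod p, ∃ a ∈ P, ∃ b ∈ R, a + b = x + j • d) → d = 0) →
      (P.card : ℝ) * R.card ≤ 8 * (p * ρ) ^ n := by
  have hp2 : 2 ≤ p := (Fact.out : p.Prime).two_le
  obtain ⟨u, hu0, hu1, hu2⟩ := exists_u p hp2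
  set ρ₀ : ℝ := (∑ j ∈ range p, u ^ ((2 * p + 4) * j)) / u ^ ((p + 1) * (p - 1)) with hρ₀
  have hp1 : (1 : ℝ) < p := by exact_mod_cast hp2
  refine ⟨max 1 ρ₀, le_max_left _ _, max_lt hp1 hu2, ?_⟩
  intro n P R hno
  set D : ℕ := (p + 1) * n * (p - 1) / (2 * p + 4) with hD
  have hD1 : (p + 1) * n * (p - 1) < (2 * p + 4) * (D + 1) := by
    have := Nat.lt_mul_div_succ ((p + 1) * n * (p - 1)) (show 0 < 2 * p + 4 by omega)
    simpa [hD] using this
  have hD2 : (2 * p + 4) * D ≤ (p + 1) * n * (p - 1) := Nat.mul_div_le _ _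
  have hcount : (count p n D : ℝ) ≤ (max 1 ρ₀) ^ n := by
    refine (count_le n D hD2 u hu0 hu1.le).trans ?_
    refine pow_le_pow_left₀ ?_ (le_max_right _ _) n
    positivity
  by_contra hlarge
  push Not at hlarge
  set M := count p n D with hM
  have hcardV : Fintype.card (Fin n → ZMod p) = p ^ n := by simp [ZMod.card]
  have hPN : (P.card : ℝ) ≤ (p : ℝ) ^ n := by
    have := card_le_univ P
    rw [hcardV] at this
    exact_mod_cast this
  have hRN : (R.card : ℝ) ≤ (p : ℝ) ^ n := by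
    have := card_le_univ R
    rw [hcardV] at this
    exact_mod_cast this
  have hpn : (0 : ℝ) < (p : ℝ) ^ n := by positivity
  have hbig : 8 * (p : ℝ) ^ n * M < (P.card : ℝ) * R.card := by
    refine lt_of_le_of_lt ?_ hlarge
    rw [mul_pow]
    calc 8 * (p : ℝ) ^ n * M ≤ 8 * (p : ℝ) ^ n * (max 1 ρ₀) ^ n :=
          mul_le_mul_of_nonneg_left hcount (by positivity)
      _ = _ := by ring
  have hMnn : (0 : ℝ) ≤ M := Nat.cast_nonneg _
  have hP8 : 8 * (M : ℝ) < P.card := by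
    by_contra hcon
    push Not at hcon
    have : (P.card : ℝ) * R.card ≤ 8 * M * (p : ℝ) ^ n :=
      mul_le_mul hcon hRN (Nat.cast_nonneg _) (by positivity)
    nlinarith
  have hR8 : 8 * (M : ℝ) < R.card := by
    by_contra hcon
    push Not at hcon
    have : (P.card : ℝ) * R.card ≤ (p : ℝ) ^ n * (8 * M) :=
      mul_le_mul hPN hcon (Nat.cast_nonneg _) (by positivity)
    nlinarith
  have hP8' : 8 * M < P.card := by exact_mod_cast hP8
  have hR8' : 8 * M < R.card := by exact_mod_cast hR8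
  have hkey : 2 * M * p ^ n < (P.card - 2 * M) * (R.card - 2 * M) := by
    have e1 : 4 * (P.card - 2 * M) ≥ 3 * P.card := by omega
    have e2 : 4 * (R.card - 2 * M) ≥ 3 * R.card := by omega
    have e3 : 16 * ((P.card - 2 * M) * (R.card - 2 * M)) ≥ 9 * (P.card * R.card) := by
      calc 9 * (P.card * R.card) = (3 * P.card) * (3 * R.card) := by ring
        _ ≤ (4 * (P.card - 2 * M)) * (4 * (R.card - 2 * M)) := Nat.mul_le_mul e1 e2
        _ = _ := by ring
    have e4 : 8 * p ^ n * M < P.card * R.card := by exact_mod_cast hbig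
    have e5 : 8 * p ^ n * M = 4 * (2 * M * p ^ n) := by ring
    omega
  obtain ⟨x, d, hd, hj⟩ := line_of_large D M hD1 (lowDeg p n D)
    (fun α hα => Submodule.subset_span ⟨α, hα, rfl⟩) (finrank_lowDeg n D) P R hkey
  exact hd (hno x d hj)

end Pool.Agent.Q274.LS
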