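import Pool.Agent.Q274.LS.Core

/-!
# Lines in sumsets of large subsets of `𝔽_p^n`
-/

set_option autoImplicit false

namespace Pool.Agent.Q274.LS

open Finset MvPolynomial

variable {p : ℕ} [hp : Fact p.Prime]

/-- the variables `a₁, a₂, b₁, b₂, y_j, z_j` -/
abbrev Ix (p : ℕ) := Fin 4 ⊕ (ZMod p ⊕ ZMod p)

theorem card_Ix : Fintype.card (Ix p) = 2 * p + 4 := by
  simp only [Fintype.card_sum, Fintype.card_fin, ZMod.card]
  ring

/-- the linear forms -/
noncomputable def form (p n : ℕ) : Option (ZMod p) × Fin n → MvPolynomial (Ix p × Fin n) (ZMod p)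
  | (none, i) => (X (Sum.inl 1, i) - X (Sum.inl 0, i)) - (X (Sum.inl 3, i) - X (Sum.inl 2, i))
  | (some j, i) => (X (Sum.inr (Sum.inl j), i) + X (Sum.inr (Sum.inr j), i)
      - (X (Sum.inl 0, i) + X (Sum.inl 2, i)))
      - C j * (X (Sum.inl 1, i) - X (Sum.inl 0, i))

theorem form_deg (n : ℕ) (e : Option (ZMod p) × Fin n) : (form p n e).totalDegree ≤ 1 := by
  have hX : ∀ q : Ix p × Fin n, (X q : MvPolynomial (Ix p × Fin n) (ZMod p)).totalDegree ≤ 1 :=
    fun q => (totalDegree_X q).le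
  have hs : ∀ f g : MvPolynomial (Ix p × Fin n) (ZMod p), f.totalDegree ≤ 1 →
      g.totalDegree ≤ 1 → (f - g).totalDegree ≤ 1 := fun f g hf hg =>
    (totalDegree_sub f g).trans (max_le hf hg)
  have ha : ∀ f g : MvPolynomial (Ix p × Fin n) (ZMod p), f.totalDegree ≤ 1 →
      g.totalDegree ≤ 1 → (f + g).totalDegree ≤ 1 := fun f g hf hg =>
    (totalDegree_add f g).trans (max_le hf hg)
  obtain ⟨j | j, i⟩ := e
  · exact hs _ _ (hs _ _ (hX _) (hX _)) (hs _ _ (hX _) (hX _))
  · refine hs _ _ (hs _ _ (ha _ _ (hX _) (hX _)) (ha _ _ (hX _) (hX _))) ?_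
    refine (totalDegree_mul _ _).trans ?_
    rw [totalDegree_C, zero_add]
    exact hs _ _ (hX _) (hX _)

theorem eval_form_none (n : ℕ) (i : Fin n) (x : Ix p → Fin n → ZMod p) :
    eval (fun q => x q.1 q.2) (form p n (none, i))
      = (x (Sum.inl 1) i - x (Sum.inl 0) i) - (x (Sum.inl 3) i - x (Sum.inl 2) i) := by
  simp [form]

theorem eval_form_some (n : ℕ) (i : Fin n) (j : ZMod p) (x : Ix p → Fin n → ZMod p) :
    eval (fun q => x q.1 q.2) (form p n (some j, i))
      = (x (Sum.inr (Sum.inl j)) i + x (Sum.inr (Sum.inr j)) i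
        - (x (Sum.inl 0) i + x (Sum.inl 2) i))
        - j * (x (Sum.inl 1) i - x (Sum.inl 0) i) := by
  simp [form]

/-- If `P` and `R` are large, then `P + R` contains a full line. -/
theorem line_of_large {n : ℕ} (D M : ℕ)
    (hD : (p + 1) * n * (p - 1) < (2 * p + 4) * (D + 1))
    (W : Submodule (ZMod p) ((Fin n → ZMod p) → ZMod p))
    (hW : ∀ α : Fin n → ℕ, ∑ i, α i ≤ D → (fun x : Fin n → ZMod p => ∏ i, x i ^ α i) ∈ W)
    (hM : Module.finrank (ZMod p) W ≤ M) (P R : Finset (Fin n → ZMod p))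
    (hPR : 2 * M * p ^ n < (P.card - 2 * M) * (R.card - 2 * M)) :
    ∃ x d : Fin n → ZMod p, d ≠ 0 ∧ ∀ j : ZMod p, ∃ a ∈ P, ∃ b ∈ R, a + b = x + j • d := by
  classical
  by_contra hno
  push Not at hno
  obtain ⟨EP, hEP, hEPc, hEP'⟩ := localize W W M hM hM P
  obtain ⟨ER, hER, hERc, hER'⟩ := localize W W M hM hM R
  -- a popular sum
  have hcardV : Fintype.card (Fin n → ZMod p) = p ^ n := by
    simp [ZMod.card]
  obtain ⟨s, -, hs⟩ := Finset.exists_lt_card_fiber_of_mul_lt_card_of_maps_to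
    (s := (P \ EP) ×ˢ (R \ ER)) (t := (univ : Finset (Fin n → ZMod p)))
    (f := fun q => q.1 + q.2) (n := 2 * M) (fun _ _ => mem_univ _) (by
      rw [card_univ, hcardV, card_product, card_sdiff_of_subset hEP, card_sdiff_of_subset hER]
      calc p ^ n * (2 * M) = 2 * M * p ^ n := mul_comm _ _
        _ < (P.card - 2 * M) * (R.card - 2 * M) := hPR
        _ ≤ _ := Nat.mul_le_mul (by omega) (by omega))
  set Y : Finset (Fin n → ZMod p) := (P \ EP).filter (fun y => s - y ∈ R \ ER) with hY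
  have hYc : 2 * M < Y.card := by
    refine lt_of_lt_of_le hs ?_
    refine card_le_card_of_injOn (fun q => q.1) ?_ ?_
    · intro q hq
      simp only [coe_filter, mem_product, Set.mem_ofPred_eq] at hq
      simp only [hY, coe_filter, Set.mem_ofPred_eq]
      refine ⟨hq.1.1, ?_⟩
      rw [← hq.2, add_sub_cancel_left]
      exact hq.1.2
    · intro q hq q' hq' h
      simp only [coe_filter, mem_product, Set.mem_ofPred_eq] at hq hq'
      simp only at h
      refine Prod.ext h ?_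
      have h2 := hq.2.trans hq'.2.symm
      rw [h] at h2
      exact add_left_cancel h2
  -- localisation for the pairs
  let W' : Submodule (ZMod p) ((Fin n → ZMod p) → ZMod p) :=
    W.map (LinearMap.funLeft (ZMod p) (ZMod p) (fun y : Fin n → ZMod p => s - y))
  obtain ⟨EY, hEY, hEYc, hEY'⟩ := localize W W' M hM ((Submodule.finrank_map_le _ _).trans hM) Y
  obtain ⟨y₀, hy₀, hy₀E⟩ : ∃ y ∈ Y, y ∉ EY := by
    by_contra hcon
    push Not at hcon
    have := card_le_card (fun y hy => hcon y hy : Y ⊆ EY)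
    omega
  obtain ⟨g, g', hg, hg', go, go', hgg, hggx⟩ := hEY' y₀ hy₀ hy₀E
  have hy₀P : y₀ ∈ P \ EP := (mem_filter.1 hy₀).1
  have hy₀R : s - y₀ ∈ R \ ER := (mem_filter.1 hy₀).2
  obtain ⟨h₁, h₂, h₁s, h₂s, h₁o, h₂o, h12, h12x⟩ :=
    hEP' y₀ (mem_sdiff.1 hy₀P).1 (mem_sdiff.1 hy₀P).2
  obtain ⟨k₁, k₂, k₁s, k₂s, k₁o, k₂o, k12, k12x⟩ :=
    hER' (s - y₀) (mem_sdiff.1 hy₀R).1 (mem_sdiff.1 hy₀R).2
  -- the functions
  let h : Ix p → (Fin n → ZMod p) → ZMod p := fun v => match v with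
    | Sum.inl 0 => h₁
    | Sum.inl 1 => h₂
    | Sum.inl 2 => k₁
    | Sum.inl 3 => k₂
    | Sum.inr (Sum.inl _) => g
    | Sum.inr (Sum.inr _) => fun z => g' (s - z)
  obtain ⟨Q, hQd, hQ⟩ := system_poly (form p n) (form_deg n)
  have hQd' : Q.totalDegree < Fintype.card (Ix p) * (D + 1) := by
    refine lt_of_le_of_lt hQd ?_
    rw [card_Ix, Fintype.card_prod, Fintype.card_option, ZMod.card, Fintype.card_fin]
    exact hD
  have horth : ∀ v, ∀ α : Fin n → ℕ, ∑ i, α i ≤ D → ∑ x, h v x * ∏ i, x i ^ α i = 0 := by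
    intro v α hα
    have hmem := hW α hα
    rcases v with v | v | v
    · fin_cases v
      · exact h₁o _ hmem
      · exact h₂o _ hmem
      · exact k₁o _ hmem
      · exact k₂o _ hmem
    · exact go _ hmem
    · have h1 := go' _ (Submodule.mem_map_of_mem hmem (f := LinearMap.funLeft (ZMod p) (ZMod p)
        (fun y : Fin n → ZMod p => s - y)))
      rw [← h1]
      refine Fintype.sum_equiv (Equiv.subLeft s) _ _ ?_
      intro x
      simp [h, LinearMap.funLeft_apply, Equiv.subLeft_apply]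
  have hzero := vanish (fun (x : Fin n → ZMod p) i => x i) D h horth Q hQd'
  -- the only nonzero term
  let x₀ : Ix p → Fin n → ZMod p := fun v => match v with
    | Sum.inl 0 => y₀
    | Sum.inl 1 => y₀
    | Sum.inl 2 => s - y₀
    | Sum.inl 3 => s - y₀
    | Sum.inr (Sum.inl _) => y₀
    | Sum.inr (Sum.inr _) => s - y₀
  have hprod : ∀ x : Ix p → Fin n → ZMod p, ∏ v, h v (x v)
      = (h₁ (x (Sum.inl 0)) * h₂ (x (Sum.inl 1)) * k₁ (x (Sum.inl 2)) * k₂ (x (Sum.inl 3)))
        * ((∏ j, g (x (Sum.inr (Sum.inl j)))) * ∏ j, g' (s - x (Sum.inr (Sum.inr j)))) := by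
    intro x
    rw [Fintype.prod_sum_type, Fintype.prod_sum_type, Fin.prod_univ_four]
  have hone : (∏ v, h v (x₀ v)) * eval (fun q => (x₀ q.1 q.2 : ZMod p)) Q = 1 := by
    have h1 : eval (fun q => (x₀ q.1 q.2 : ZMod p)) Q = 1 := by
      rcases hQ (fun q => x₀ q.1 q.2) with h1 | h1
      · exact h1.2
      · exfalso
        obtain ⟨⟨⟨j | j, i⟩, hji⟩, -⟩ := h1
        · apply hji
          rw [eval_form_none]
          simp [x₀]
        · apply hji
          rw [eval_form_some]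
          simp [x₀]
    rw [h1, hprod, mul_one]
    simp only [x₀, sub_sub_cancel]
    rw [← prod_mul_distrib]
    simp only [hgg, prod_const_one, mul_one]
    rw [h12, one_mul, k12]
  refine one_ne_zero (α := ZMod p) ?_
  rw [← hone, ← hzero]
  symm
  refine Finset.sum_eq_single x₀ ?_ (fun h => absurd (mem_univ _) h)
  intro x _ hx
  by_contra hne
  apply hx
  have hne1 := left_ne_zero_of_mul hne
  have hne2 := right_ne_zero_of_mul hne
  have hv : ∀ v, h v (x v) ≠ 0 := fun v => Finset.prod_ne_zero_iff.1 hne1 v (mem_univ v)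
  have heq : ∀ e, eval (fun q => x q.1 q.2) (form p n e) = 0 := by
    rcases hQ (fun q => x q.1 q.2) with h1 | h1
    · exact h1.1
    · exact absurd h1.2 hne2
  have e0 : x (Sum.inl 1) - x (Sum.inl 0) = x (Sum.inl 3) - x (Sum.inl 2) := by
    funext i
    have := heq (none, i)
    rw [eval_form_none] at this
    simpa [Pi.sub_apply] using sub_eq_zero.1 this
  have ej : ∀ j, x (Sum.inr (Sum.inl j)) + x (Sum.inr (Sum.inr j))
      = (x (Sum.inl 0) + x (Sum.inl 2)) + j • (x (Sum.inl 1) - x (Sum.inl 0)) := by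
    intro j
    funext i
    have := heq (some j, i)
    rw [eval_form_some] at this
    simp only [Pi.add_apply, Pi.smul_apply, Pi.sub_apply, smul_eq_mul]
    linear_combination this
  have hd : x (Sum.inl 1) - x (Sum.inl 0) = 0 := by
    by_contra hd
    obtain ⟨j, hj⟩ := hno (x (Sum.inl 0) + x (Sum.inl 2)) _ hd
    refine hj _ ?_ _ ?_ (ej j)
    · have h1 := hg _ (hv (Sum.inr (Sum.inl j)))
      exact (mem_sdiff.1 (mem_filter.1 h1).1).1
    · have h1 := hg' _ (hv (Sum.inr (Sum.inr j)))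
      have h2 := (mem_sdiff.1 (mem_filter.1 h1).2).1
      rwa [sub_sub_cancel] at h2
  have ha : x (Sum.inl 1) = x (Sum.inl 0) := sub_eq_zero.1 hd
  have hb : x (Sum.inl 3) = x (Sum.inl 2) := by
    rw [hd] at e0
    exact sub_eq_zero.1 e0.symm
  have ha0 : x (Sum.inl 0) = y₀ := by
    refine h12x _ ?_
    have h1 := hv (Sum.inl 0)
    have h2 := hv (Sum.inl 1)
    rw [ha] at h2
    exact mul_ne_zero h1 h2
  have hb0 : x (Sum.inl 2) = s - y₀ := by
    refine k12x _ ?_
    have h1 := hv (Sum.inl 2)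
    have h2 := hv (Sum.inl 3)
    rw [hb] at h2
    exact mul_ne_zero h1 h2
  have hsum : ∀ j, x (Sum.inr (Sum.inr j)) = s - x (Sum.inr (Sum.inl j)) := by
    intro j
    have h1 := ej j
    rw [hd, smul_zero, add_zero, ha0, hb0] at h1
    rw [eq_sub_iff_add_eq, add_comm, h1]
    abel
  have hyj : ∀ j, x (Sum.inr (Sum.inl j)) = y₀ := by
    intro j
    refine hggx _ ?_
    have h1 := hv (Sum.inr (Sum.inl j))
    have h2 := hv (Sum.inr (Sum.inr j))
    have h3 : h (Sum.inr (Sum.inr j)) (x (Sum.inr (Sum.inr j))) = g' (x (Sum.inr (Sum.inl j))) := by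
      show g' (s - x (Sum.inr (Sum.inr j))) = _
      rw [hsum j, sub_sub_cancel]
    rw [h3] at h2
    exact mul_ne_zero h1 h2
  funext v
  rcases v with v | v | v
  · fin_cases v
    · exact ha0
    · exact ha.trans ha0
    · exact hb0
    · exact hb.trans hb0
  · exact hyj v
  · rw [hsum v, hyj v]

end Pool.Agent.Q274.LS
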